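import Pool.Agent.L7h7.GJ.Stm

set_option autoImplicit false

/-! # GJ, part FIN: the final assembly -/

namespace Pool.Agent.L7h12.GJ

open scoped BigOperators
open Pool.Agent.L7h7.GJ

theorem inl_mem {d k : ℕ} (i : Fin (d + 1)) : (Sum.inl i : Lab d) ∈ Lk d k := Or.inl ⟨i, rfl⟩

theorem adm_tail {d : ℕ} {i : Fin (d + 1)} {ν : Wd d} (h : Adm (i :: ν)) : Adm ν := by
  cases ν with
  | nil => exact trivial
  | cons j μ => exact h.2

theorem sx_mem {d k : ℕ} (ν : Wd d) (ha : Adm ν) (hl : ν.length ≤ k) (m : Fin (d + 1)) :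
    sx ν m ∈ Lk d k := by
  induction ν with
  | nil => exact inl_mem m
  | cons i ν ih =>
    have ih' := ih (adm_tail ha) (by simp at hl; omega)
    by_cases hm : m = i
    · subst hm
      have : sx (m :: ν) m = Sum.inr (m :: ν) := by simp [sx]
      rw [this]
      exact Or.inr ⟨m :: ν, ⟨by simp, ha, hl⟩, rfl⟩
    · have : sx (i :: ν) m = sx ν m := by simp [sx, hm]
      rw [this]
      exact ih'

theorem inj_of_GP {d : ℕ} {ι : Type} {p : ι → E d} {L : Set ι} (hd : 1 ≤ d) (h : GP p L) :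
    Set.InjOn p L := by
  classical
  intro x hx y hy hxy
  by_contra hne
  have h1 := h {x, y} (by
    intro z hz
    simp only [Finset.coe_insert, Finset.coe_singleton, Set.mem_insert_iff,
      Set.mem_singleton_iff] at hz
    rcases hz with rfl | rfl
    · exact hx
    · exact hy) (by rw [Finset.card_pair hne]; omega)
  have h2 := h1.injective
  have h3 : (⟨x, by simp⟩ : ({x, y} : Finset ι)) = ⟨y, by simp⟩ := h2 hxy
  exact hne (congrArg Subtype.val h3)

theorem range_eq {d : ℕ} {ι : Type} (p : ι → E d) (B : Finset ι) :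
    Set.range (fun x : B => p x) = p '' (B : Set ι) := by
  ext z
  constructor
  · rintro ⟨x, rfl⟩
    exact ⟨x, x.2, rfl⟩
  · rintro ⟨x, hx, rfl⟩
    exact ⟨⟨x, hx⟩, rfl⟩

theorem span_top {d : ℕ} {ι : Type} {p : ι → E d} {L : Set ι} (h : GP p L) (B : Finset ι)
    (hB : (B : Set ι) ⊆ L) (hc : B.card = d + 1) : affineSpan ℝ (p '' (B : Set ι)) = ⊤ := by
  have h1 := h B hB hc.le
  rw [← range_eq, h1.affineSpan_eq_top_iff_card_eq_finrank_add_one]
  rw [Fintype.card_coe, hc]
  simp

theorem s_FIN : S_FIN := by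
  classical
  intro hcard hinv hbound d hd ε hε N
  have hd1 : (1 : ℝ) < d := by exact_mod_cast (by omega : 1 < d)
  have hd0 : (0 : ℝ) < d := by linarith
  -- the choice of k
  have hde : 1 < (d : ℝ) ^ ε := Real.one_lt_rpow hd1 hε
  obtain ⟨k2, hk2⟩ := pow_unbounded_of_one_lt ((d : ℝ) + 5) hde
  set k : ℕ := max N k2 with hk
  have hkN : N ≤ k := le_max_left _ _
  have hkk : k2 ≤ k := le_max_right _ _
  have hNk : N ≤ d ^ k := hkN.trans (Nat.lt_pow_self (by omega : 1 < d)).le
  have hek : (d : ℝ) + 5 ≤ ((d : ℝ) ^ ε) ^ k := hk2.le.trans (pow_le_pow_right₀ hde.le hkk)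
  obtain ⟨hfin, hcd⟩ := hcard d k (by omega)
  obtain ⟨p, hGP, hpt, hridge, -⟩ := hinv d k (by omega)
  have hGP : GP p (Lk d k) := hGP
  have hpt : ∀ x ∈ Lk d k, Expo p (Lk d k) {x} := hpt
  have hridge : ∀ ν : Wd d, (ν = [] ∨ ν ∈ Wk d k) → ∀ i j, i ≠ j →
    Expo p (Lk d k) (sx ν '' ({i, j} : Set (Fin (d + 1)))ᶜ) := hridge
  have hinj : Set.InjOn p (Lk d k) := inj_of_GP (by omega) hGP
  set Lf : Finset (Lab d) := hfin.toFinset with hLf
  have hmem : ∀ x, x ∈ Lf ↔ x ∈ Lk d k := fun x => hfin.mem_toFinset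
  set V : Finset (E d) := Lf.image p with hV
  have hVmem : ∀ v, v ∈ V ↔ ∃ x ∈ Lk d k, p x = v := by
    intro v
    rw [hV, Finset.mem_image]
    constructor
    · rintro ⟨x, hx, rfl⟩
      exact ⟨x, (hmem x).1 hx, rfl⟩
    · rintro ⟨x, hx, rfl⟩
      exact ⟨x, (hmem x).2 hx, rfl⟩
  have hVcard : d ^ k ≤ V.card := by
    rw [hV, Finset.card_image_of_injOn (fun x hx y hy h => hinj ((hmem x).1 hx) ((hmem y).1 hy) h)]
    rw [Set.ncard_eq_toFinset_card _ hfin] at hcd
    exact hcd
  refine ⟨V, ?_, ?_, ?_, hNk.trans hVcard, ?_⟩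
  · -- affine span
    rw [eq_top_iff]
    have h1 := span_top hGP (Finset.univ.image (Sum.inl : Fin (d + 1) → Lab d)) (by
      intro x hx
      simp only [Finset.coe_image, Finset.coe_univ, Set.image_univ, Set.mem_range] at hx
      obtain ⟨i, rfl⟩ := hx
      exact inl_mem i) (by
      rw [Finset.card_image_of_injective _ Sum.inl_injective, Finset.card_univ, Fintype.card_fin])
    rw [← h1]
    apply affineSpan_mono
    rintro _ ⟨x, hx, rfl⟩
    simp only [Finset.coe_image, Finset.coe_univ, Set.image_univ, Set.mem_range] at hx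
    obtain ⟨i, rfl⟩ := hx
    exact Finset.mem_coe.2 ((hVmem _).2 ⟨_, inl_mem i, rfl⟩)
  · -- convex independence
    intro v hv hcon
    obtain ⟨x, hx, rfl⟩ := (hVmem v).1 hv
    obtain ⟨l, c, h1, h2⟩ := hpt x hx
    have h3 : convexHull ℝ ((V : Set (E d)) \ {p x}) ⊆ {z | l z < c} := by
      apply convexHull_min
      · rintro z ⟨hz, hzx⟩
        obtain ⟨y, hy, rfl⟩ := (hVmem z).1 hz
        refine h2 y hy ?_
        rintro rfl
        exact hzx rfl
      · exact convex_halfSpace_lt l.toLinearMap.isLinear c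
    have h4 : l (p x) < c := h3 hcon
    rw [h1 x rfl] at h4
    exact lt_irrefl _ h4
  · -- simplicial
    rintro A ⟨l, hl⟩ hAV
    set B : Finset (Lab d) := Lf.filter (fun x => p x ∈ A) with hB
    have hBL : (B : Set (Lab d)) ⊆ Lk d k := by
      intro x hx
      rw [hB, Finset.coe_filter] at hx
      exact (hmem x).1 hx.1
    have hBA : p '' (B : Set (Lab d)) = A := by
      ext z
      constructor
      · rintro ⟨x, hx, rfl⟩
        rw [hB, Finset.coe_filter] at hx
        exact hx.2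
      · intro hz
        obtain ⟨x, hx, rfl⟩ := (hVmem z).1 ((hl z).1 hz).1
        refine ⟨x, ?_, rfl⟩
        rw [hB, Finset.coe_filter]
        exact ⟨(hmem x).2 hx, hz⟩
    have hsub : A ⊆ (V : Set (E d)) := fun z hz => ((hl z).1 hz).1
    obtain ⟨v, hvV, hvA⟩ := Set.exists_of_ssubset (lt_of_le_of_ne hsub hAV)
    -- a vertex outside the face
    have hBcard : B.card ≤ d + 1 := by
      by_contra hcon
      push Not at hcon
      obtain ⟨B', hB'B, hB'c⟩ := Finset.exists_subset_card_eq hcon.le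
      have h1 := span_top hGP B' (fun x hx => hBL (hB'B hx)) hB'c
      have hne : B'.Nonempty := by
        rw [← Finset.card_pos, hB'c]; omega
      obtain ⟨a, ha⟩ := hne
      have haA : p a ∈ A := by
        rw [← hBA]; exact ⟨a, hB'B ha, rfl⟩
      have hall : ∀ z ∈ p '' (B' : Set (Lab d)), l z = l (p a) := by
        rintro _ ⟨y, hy, rfl⟩
        have hyA : p y ∈ A := by
          rw [← hBA]; exact ⟨y, hB'B hy, rfl⟩
        exact le_antisymm (((hl _).1 haA).2 _ (hsub hyA)) (((hl _).1 hyA).2 _ (hsub haA))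
      have hspan : affineSpan ℝ (p '' (B' : Set (Lab d))) ≤
          (AffineSubspace.mk' (l (p a)) (⊥ : Submodule ℝ ℝ)).comap l.toLinearMap.toAffineMap := by
        rw [affineSpan_le]
        intro z hz
        simp only [AffineSubspace.coe_comap, Set.mem_preimage]
        have : l z = l (p a) := hall z hz
        have e : l.toLinearMap.toAffineMap z = l (p a) := this
        rw [SetLike.mem_coe, e]
        exact AffineSubspace.self_mem_mk' _ _
      rw [h1] at hspan
      have hv : v ∈ (AffineSubspace.mk' (l (p a)) (⊥ : Submodule ℝ ℝ)).comap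
          l.toLinearMap.toAffineMap := hspan (AffineSubspace.mem_top ℝ (E d) v)
      rw [AffineSubspace.mem_comap, AffineSubspace.mem_mk'] at hv
      have hv' : l v = l (p a) := by
        have : l v - l (p a) = 0 := by simpa using hv
        linarith
      apply hvA
      rw [hl]
      refine ⟨hvV, fun w hw => ?_⟩
      rw [hv']
      exact ((hl _).1 haA).2 w hw
    have h1 := (hGP B hBL hBcard).range
    rw [range_eq, hBA] at h1
    exact h1
  · -- the bound
    intro W f hWs hWc hf hface c r hr hWball T hTW hTs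
    set q : Lab d → E d := fun x => f (p x) with hq
    have hpV : ∀ x ∈ Lk d k, p x ∈ (V : Set (E d)) := fun x hx =>
      Finset.mem_coe.2 ((hVmem _).2 ⟨x, hx, rfl⟩)
    have hqW : ∀ x ∈ Lk d k, q x ∈ (W : Set (E d)) := fun x hx => hf.mapsTo (hpV x hx)
    have hqinj : ∀ x ∈ Lk d k, ∀ y ∈ Lk d k, q x = q y → x = y := fun x hx y hy h =>
      hinj hx hy (hf.injOn (hpV x hx) (hpV y hy) h)
    have hexp : ∀ A0 : Set (Lab d), A0 ⊆ Lk d k → A0.Nonempty → Expo p (Lk d k) A0 →
        Expo q (Lk d k) A0 := by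
      rintro A0 hA0 ⟨a0, ha0⟩ ⟨l, c0, h1, h2⟩
      have hAV : p '' A0 ⊆ (V : Set (E d)) := by
        rintro _ ⟨x, hx, rfl⟩
        exact hpV x (hA0 hx)
      obtain ⟨l', hl'⟩ := (hface (p '' A0) hAV).1 ⟨l, by
        intro x
        constructor
        · rintro ⟨a, ha, rfl⟩
          refine ⟨hpV a (hA0 ha), fun w hw => ?_⟩
          obtain ⟨b, hb, rfl⟩ := (hVmem w).1 hw
          rw [h1 a ha]
          by_cases hbA : b ∈ A0
          · rw [h1 b hbA]
          · exact (h2 b hb hbA).le
        · rintro ⟨hxV, hmax⟩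
          obtain ⟨b, hb, rfl⟩ := (hVmem x).1 hxV
          by_cases hbA : b ∈ A0
          · exact ⟨b, hbA, rfl⟩
          · exfalso
            have h3 := hmax (p a0) (hpV a0 (hA0 ha0))
            rw [h1 a0 ha0] at h3
            exact absurd (h2 b hb hbA) (not_lt.2 h3)⟩
      have hfq : ∀ x ∈ A0, q x ∈ f '' (p '' A0) := fun x hx => ⟨p x, ⟨x, hx, rfl⟩, rfl⟩
      refine ⟨l', l' (q a0), fun x hx => ?_, fun x hx hxA => ?_⟩
      · exact le_antisymm (((hl' _).1 (hfq a0 ha0)).2 _ (hqW x (hA0 hx)))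
          (((hl' _).1 (hfq x hx)).2 _ (hqW a0 (hA0 ha0)))
      · by_contra hcon
        push Not at hcon
        have h3 : q x ∈ f '' (p '' A0) := by
          rw [hl']
          refine ⟨hqW x hx, fun w hw => ?_⟩
          exact (((hl' _).1 (hfq a0 ha0)).2 w hw).trans hcon
        obtain ⟨_, ⟨a, ha, rfl⟩, h4⟩ := h3
        exact hxA (hqinj a (hA0 ha) x hx h4 ▸ ha)
    set T' : Finset (Lab d) := Lf.filter (fun x => q x ∈ T) with hT'
    have hTT' : T ⊆ T'.image q := by
      intro w hw
      obtain ⟨v, hv, rfl⟩ := hf.surjOn (Finset.mem_coe.2 (hTW hw))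
      obtain ⟨x, hx, rfl⟩ := (hVmem v).1 hv
      rw [Finset.mem_image]
      refine ⟨x, ?_, rfl⟩
      rw [hT', Finset.mem_filter]
      exact ⟨(hmem x).2 hx, hw⟩
    have hb := hbound d k q c r T' hd hr (by
      intro ν ha hlen i j hij
      refine hexp _ ?_ ?_ (hridge ν ?_ i j hij)
      · rintro _ ⟨m, -, rfl⟩
        exact sx_mem ν ha hlen m
      · obtain ⟨m, hm⟩ : ∃ m : Fin (d + 1), m ∉ ({i, j} : Finset (Fin (d + 1))) := by
          by_contra hcon
          push Not at hcon
          have h5 : (Finset.univ : Finset (Fin (d + 1))) ⊆ {i, j} := fun m _ => hcon m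
          have h6 := (Finset.card_le_card h5).trans Finset.card_le_two
          rw [Finset.card_univ, Fintype.card_fin] at h6
          omega
        refine ⟨sx ν m, m, ?_, rfl⟩
        simpa using hm
      · by_cases h0 : ν = []
        · exact Or.inl h0
        · exact Or.inr ⟨h0, ha, hlen⟩) (by
      intro x hx hcon
      refine hWc (q x) (hqW x hx) (convexHull_mono ?_ hcon)
      rintro _ ⟨y, ⟨hy, hyx⟩, rfl⟩
      refine ⟨hqW y hy, fun h => hyx ?_⟩
      exact hqinj y hy x hx h) (by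
      intro x hx
      exact hWball (hqW x hx)) (by
      intro x hx
      rw [hT', Finset.coe_filter] at hx
      exact (hmem x).1 hx.1) (by
      intro x hx
      rw [hT', Finset.mem_filter] at hx
      exact hTs _ hx.2)
    have hTc : T.card ≤ d + 1 + 4 * 2 ^ k :=
      ((Finset.card_le_card hTT').trans Finset.card_image_le).trans hb
    -- the final inequality
    have e1 : (T.card : ℝ) ≤ (d : ℝ) + 1 + 4 * 2 ^ k := by exact_mod_cast hTc
    have hlogd : 0 < Real.log d := Real.log_pos hd1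
    have hexp0 : 0 ≤ Real.log 2 / Real.log (d : ℝ) + ε := by
      have := Real.log_pos (by norm_num : (1 : ℝ) < 2)
      positivity
    have e2 : ((d : ℝ) ^ k) ^ (Real.log 2 / Real.log (d : ℝ) + ε) = 2 ^ k * ((d : ℝ) ^ ε) ^ k := by
      have hdk : (0 : ℝ) < (d : ℝ) ^ k := by positivity
      rw [Real.rpow_add hdk]
      congr 1
      · rw [← Real.rpow_natCast (d : ℝ) k, ← Real.rpow_mul hd0.le, mul_comm (k : ℝ),
          Real.rpow_mul hd0.le]
        have : (d : ℝ) ^ (Real.log 2 / Real.log (d : ℝ)) = 2 := by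
          rw [Real.rpow_def_of_pos hd0, mul_div_cancel₀ _ hlogd.ne', Real.exp_log (by norm_num)]
        rw [this, Real.rpow_natCast]
      · rw [← Real.rpow_natCast (d : ℝ) k, ← Real.rpow_mul hd0.le, mul_comm (k : ℝ),
          Real.rpow_mul hd0.le, Real.rpow_natCast]
    have e3 : ((d : ℝ) ^ k) ^ (Real.log 2 / Real.log (d : ℝ) + ε) ≤
        (V.card : ℝ) ^ (Real.log 2 / Real.log (d : ℝ) + ε) := by
      apply Real.rpow_le_rpow (by positivity) _ hexp0
      exact_mod_cast hVcard
    refine e1.trans (le_trans ?_ e3)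
    rw [e2]
    have h2k : (1 : ℝ) ≤ 2 ^ k := one_le_pow₀ (by norm_num)
    calc (d : ℝ) + 1 + 4 * 2 ^ k ≤ 2 ^ k * ((d : ℝ) + 5) := by nlinarith
      _ ≤ 2 ^ k * ((d : ℝ) ^ ε) ^ k := by
        apply mul_le_mul_of_nonneg_left hek (by positivity)

end Pool.Agent.L7h12.GJ
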